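import Pool.Agent.H75.CD.Fm
import Pool.Agent.H2.UF.Mtx
import Pool.Agent.H54.AP.Pd
import Pool.Agent.H52.DT.ClMem
import Pool.Agent.H52.CD.Def

/-!
# [CD] The Artin group of type `H3` is in the class

The folding of `D6` on `H3`.
-/

set_option autoImplicit false

namespace Pool.Agent.H75.CD

open Pool.H8.CDW Pool.Agent.H52.PAG Pool.Agent.H75.INF Pool.Agent.H2.UF Pool.Agent.H54.TF Pool.Agent.H98.FJ
open Pool.Agent.H10.DT Pool.Agent.H98.BR Pool.Agent.H54.AP
open Pool.Agent.H98.DT (pl cmD cmD_apply lD)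
open Pool.Agent.H54.AR (rst rst_apply)

/-- the diagram `H3` -/
def cmH3 : CoxeterMatrix (Fin 3) where
  M := !![1, 5, 2; 5, 1, 3; 2, 3, 1]
  isSymm := by decide
  diagonal := by decide
  off_diagonal := by decide

theorem h3_01 : cmH3 0 1 = 5 := rfl

/-- the Coxeter group of type `H3` is finite -/
theorem h3_fin : Finite cmH3.Group := by
  refine fin_of_pd (by decide) fun x hx => ?_
  have e1 : cm cmH3 0 1 = -((1 + √5) / 4) := cm_five rfl
  have e2 : cm cmH3 1 0 = -((1 + √5) / 4) := cm_five rfl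
  have e3 : cm cmH3 1 2 = -(1 / 2) := cm_three rfl
  have e4 : cm cmH3 2 1 = -(1 / 2) := cm_three rfl
  have e5 : cm cmH3 0 2 = 0 := cm_two rfl
  have e6 : cm cmH3 2 0 = 0 := cm_two rfl
  have h5 : √5 * √5 = 5 := Real.mul_self_sqrt (by norm_num)
  have h5' : √5 < 3 := by
    rw [Real.sqrt_lt' (by norm_num)]
    norm_num
  have hq : qf cmH3 x = (x 0 - (1 + √5) / 4 * x 1) ^ 2 + (x 2 - x 1 / 2) ^ 2 + (3 - √5) / 8 * (x 1) ^ 2 := by
    unfold qf bf
    simp only [Fin.sum_univ_three, cm_self, e1, e2, e3, e4, e5, e6]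
    linear_combination (-(x 1) ^ 2 / 16) * h5
  rw [hq]
  by_contra hcon
  have h8 : 0 < (3 - √5) / 8 := by linarith
  have h7 : x 1 = 0 := by
    by_contra h9
    have h10 : 0 < (x 1) ^ 2 := by positivity
    nlinarith [sq_nonneg (x 0 - (1 + √5) / 4 * x 1), sq_nonneg (x 2 - x 1 / 2), mul_pos h8 h10]
  rw [h7] at hcon
  have h9 : x 0 = 0 := by
    by_contra h9
    have h10 : 0 < (x 0) ^ 2 := by positivity
    nlinarith [sq_nonneg (x 2)]
  have h10 : x 2 = 0 := by
    by_contra h11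
    have h10 : 0 < (x 2) ^ 2 := by positivity
    nlinarith [sq_nonneg (x 0)]
  apply hx
  funext i
  fin_cases i
  · exact h9
  · exact h7
  · exact h10

/-- the vertices of `D6` -/
def e6 : Fin 3 ⊕ Fin 3 ≃ Option (Fin 5) where
  toFun
    | .inl 0 => some 4
    | .inl 1 => some 3
    | .inl 2 => none
    | .inr 0 => some 2
    | .inr 1 => some 1
    | .inr 2 => some 0
  invFun
    | none => .inl 2
    | some 0 => .inr 2
    | some 1 => .inr 1
    | some 2 => .inr 0
    | some 3 => .inl 1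
    | some 4 => .inl 0
  left_inv := by decide
  right_inv := by decide

/-- the entries of the unfolded matrix -/
def mxd : Fin 3 ⊕ Fin 3 → Fin 3 ⊕ Fin 3 → ℕ
  | .inl i, .inl j => if (i = 0 ∧ j = 1) ∨ (i = 1 ∧ j = 0) then 3 else cmH3 i j
  | .inr i, .inr j => if (i = 0 ∧ j = 1) ∨ (i = 1 ∧ j = 0) then 3 else cmH3 i j
  | .inl i, .inr j => if i = 1 ∧ j = 0 then 3 else 2
  | .inr i, .inl j => if i = 0 ∧ j = 1 then 3 else 2

theorem mxd_eq : ∀ x y, cmD 2 3 (e6 x) (e6 y) = mxd x y := by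
  decide

theorem mx_eq (x y : Fin 3 ⊕ (Set.univ : Set (Fin 3))) :
    Mx cmH3 (b := 0) (c := 1) (by decide) (Set.univ : Set (Fin 3)) x y =
      mxd (Equiv.sumCongr (Equiv.refl _) (Equiv.Set.univ (Fin 3)) x) (Equiv.sumCongr (Equiv.refl _) (Equiv.Set.univ (Fin 3)) y) := by
  rcases x with i | i <;> rcases y with j | j
  · by_cases h : (i = 0 ∧ j = 1) ∨ (i = 1 ∧ j = 0)
    · exact Eq.trans (b := 3) (if_pos h) (if_pos h).symm
    · exact Eq.trans (b := cmH3 i j) (if_neg h) (if_neg h).symm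
  · by_cases h : i = 1 ∧ j.1 = 0
    · exact Eq.trans (b := 3) (if_pos h) (if_pos h).symm
    · exact Eq.trans (b := 2) (if_neg h) (if_neg h).symm
  · by_cases h : i.1 = 0 ∧ j = 1
    · exact Eq.trans (b := 3) (if_pos h) (if_pos h).symm
    · exact Eq.trans (b := 2) (if_neg h) (if_neg h).symm
  · by_cases h : (i.1 = 0 ∧ j.1 = 1) ∨ (i.1 = 1 ∧ j.1 = 0)
    · exact Eq.trans (b := 3) (if_pos h) (if_pos h).symm
    · exact Eq.trans (b := cmH3 i.1 j.1) (if_neg h) (if_neg h).symm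

variable {C : (G : Type) → [Group G] → Prop}

/-- the Artin group of type `H3` -/
theorem art_h3_mem (hC : Inherits C) (hE : Extension C) (hF : FreeByZ C) : C (Art cmH3) := by
  obtain ⟨F, hF1⟩ := exists_fold5 cmH3 (b := 0) (c := 1) (by decide) {0} rfl (by decide) (by
    rintro i hi j hj h1
    have hi' : i = 0 := hi
    subst hi'
    have hj' : j ≠ 0 := hj
    fin_cases j
    · exact absurd rfl hj'
    · exact absurd ⟨rfl, rfl⟩ h1
    · rfl) rfl
  have := h3_fin
  have := F.fin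
  refine fold_mem hC F (fun i => ⟨.inl i, by rw [hF1]; rfl⟩) ?_
  exact Pool.Agent.H52.DT.art_mem_congr hC _ (cmD 2 3) ((Equiv.sumCongr (Equiv.refl _) (Equiv.Set.univ (Fin 3))).trans e6)
    (fun x y => by rw [mx_eq, ← mxd_eq]; rfl) (dn_mem' 2 hC hE hF)

/-- type `H3` is in the class -/
theorem h3_mem (hC : Inherits C) (hE : Extension C) (hF : FreeByZ C) {B : Type} (M : CoxeterMatrix B) (T : Finset B)
    (h : Pool.Agent.H52.CD.IsTy M T 3 Pool.Agent.H52.CD.Ex.H3.lab) : C (Art (rst M T)) := by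
  obtain ⟨e, h1⟩ := h
  refine Pool.Agent.H52.DT.cl_of hC M T cmH3 e (Equiv.refl _) (fun i j hij => ?_) (art_h3_mem hC hE hF)
  rw [h1 i j hij]
  revert i j
  decide

end Pool.Agent.H75.CD
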