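import Pool.Agent.H2.UF.Inv
import Pool.Agent.H54.TF.Lft
import Pool.Agent.H54.CT.Fi
import Pool.Agent.H98.FJ.Closed

/-!
# [CD] Foldings of finite type give injective maps of the Artin groups
-/

set_option autoImplicit false

namespace Pool.Agent.H75.CD

open Pool.H8.CDW Pool.Agent.H52.PAG Pool.Agent.H75.INF Pool.Agent.H2.UF Pool.Agent.H54.TF Pool.Agent.H98.FJ

variable {B B' : Type} {M : CoxeterMatrix B} {M' : CoxeterMatrix B'}

/-- the homomorphism of the Artin groups is injective -/
theorem fold_inj [Finite B] (F : Fold M M') [Finite M.Group] [Finite M'.Group] (hs : Function.Surjective F.pi) :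
    Function.Injective F.fa := by
  classical
  rw [injective_iff_map_eq_one]
  intro g hg
  have h1 : ∀ i : B, g ∈ ap M ({i}ᶜ : Set B) := by
    intro i
    obtain ⟨t, rfl⟩ := hs i
    exact F.mem_of_mem (by rw [hg]; exact one_mem _)
  have h2 : ∀ s : Finset B, g ∈ ap M ((s : Set B)ᶜ) := by
    intro s
    induction s using Finset.induction_on with
    | empty =>
      rw [Finset.coe_empty, Set.compl_empty, ap_univ]
      trivial
    | insert i s _ ih =>
      have h3 : g ∈ ap M ({i}ᶜ : Set B) ⊓ ap M ((s : Set B)ᶜ) := ⟨h1 i, ih⟩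
      rw [ap_inter] at h3
      refine ap_mono ?_ h3
      rintro x ⟨hx1, hx2⟩ hx
      rw [Finset.coe_insert] at hx
      rcases hx with hx | hx
      · exact hx1 hx
      · exact hx2 hx
  have := Fintype.ofFinite B
  have h3 := h2 Finset.univ
  rw [Finset.coe_univ, Set.compl_univ] at h3
  have h4 : ap M (∅ : Set B) = ⊥ := by
    unfold ap
    rw [Set.image_empty, Subgroup.closure_empty]
  rw [h4] at h3
  exact Subgroup.mem_bot.1 h3

/-- the class of the Artin group of the folded diagram -/
theorem fold_mem {C : (G : Type) → [Group G] → Prop} (hC : Inherits C) [Finite B] (F : Fold M M') [Finite M.Group]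
    [Finite M'.Group] (hs : Function.Surjective F.pi) (h : C (Art M')) : C (Art M) :=
  hC.of_injective F.fa (fold_inj F hs) h

end Pool.Agent.H75.CD
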