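import Pool.Agent.H52.CD.Lng
import Pool.Agent.H10.CD.Exc

/-!
# [CD] The case of a chain

`T` is an induced chain with at most one label larger than three.
-/

set_option autoImplicit false

namespace Pool.Agent.H75.CD

open Finset Pool.Agent.H52.CD Pool.Agent.H52.DT

variable {B : Type} {M : CoxeterMatrix B} {T : Finset B}

/-- the chain as an equivalence -/
theorem chn_equiv {n : ℕ} {p : ℕ → B} (hp : Chn M T n p) (hT : ∀ b ∈ T, ∃ x, x < n ∧ p x = b) :
    ∃ e : Fin n ≃ T, ∀ x : Fin n, (e x : B) = p x := by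
  refine ⟨Equiv.ofBijective (fun x : Fin n => (⟨p x, hp.mem x x.2⟩ : T)) ⟨fun x y h => ?_, fun b => ?_⟩, fun x => rfl⟩
  · have h1 : p x = p y := congrArg (fun z : T => (z : B)) h
    exact Fin.ext (hp.eq x.2 y.2 h1)
  · obtain ⟨x, hx, hxb⟩ := hT b b.2
    exact ⟨⟨x, hx⟩, Subtype.ext hxb⟩

theorem chn_card {n : ℕ} {p : ℕ → B} (hp : Chn M T n p) (hT : ∀ b ∈ T, ∃ x, x < n ∧ p x = b) : T.card = n := by
  obtain ⟨e, -⟩ := chn_equiv hp hT
  have h1 := Fintype.card_congr e
  rw [Fintype.card_fin, Fintype.card_coe] at h1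
  exact h1.symm

/-- the type of a chain -/
theorem chn_ty {n : ℕ} {p : ℕ → B} (hp : Chn M T n p) (hT : ∀ b ∈ T, ∃ x, x < n ∧ p x = b) {L : ℕ → ℕ → ℕ}
    (hL : ∀ x y, x < y → y < n → M (p x) (p y) = L x y) : IsTy M T n L := by
  obtain ⟨e, he⟩ := chn_equiv hp hT
  refine ⟨e, fun x y hxy => ?_⟩
  rw [he, he]
  exact hL x y hxy y.2

/-- all labels are three -/
theorem end_path3 (h : Hy M T) {n : ℕ} {p : ℕ → B} (hp : Chn M T n p) (hT : ∀ b ∈ T, ∃ x, x < n ∧ p x = b)
    (hi : ∀ x y, x + 1 < y → y < n → M (p x) (p y) = 2) (h3 : ∀ x, x + 1 < n → M (p x) (p (x + 1)) = 3) :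
    IsCl M T := by
  have hn : 3 ≤ n := by
    rw [← chn_card hp hT]
    exact h.card
  obtain ⟨e, he⟩ := chn_ty hp hT (L := Cl.A.lab n) fun x y hxy hy => by
    change M (p x) (p y) = if x + 1 = y then 3 else 2
    split_ifs with h1
    · subst h1
      exact h3 x hy
    · exact hi x y (by omega) hy
  exact ⟨.A, n, e, hn, he⟩

/-- the labels of a chain are at most five -/
theorem chn_le5 (h : Hy M T) {n : ℕ} {p : ℕ → B} (hp : Chn M T n p) (hn : 3 ≤ n) {k : ℕ} (hk : k + 1 < n)
    (h4 : 4 ≤ M (p k) (p (k + 1))) : M (p k) (p (k + 1)) ≤ 5 := by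
  rcases Nat.eq_zero_or_pos k with h0 | h0
  · subst h0
    have h1 := h.tri (hp.mem 0 (by omega)) (hp.mem 1 (by omega)) (hp.mem 2 (by omega)) (hp.ne (by omega) (by omega) (by omega))
      (hp.ne (by omega) (by omega) (by omega)) (hp.ne (by omega) (by omega) (by omega)) (hp.adj 0 (by omega))
      (hp.adj 1 (by omega))
    simp only [Nat.zero_add] at h4 ⊢
    omega
  · obtain ⟨j, rfl⟩ : ∃ j, k = j + 1 := ⟨k - 1, by omega⟩
    have h1 := h.tri (hp.mem j (by omega)) (hp.mem (j + 1) (by omega)) (hp.mem (j + 1 + 1) hk)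
      (hp.ne (by omega) (by omega) (by omega)) (hp.ne (by omega) (by omega) (by omega))
      (hp.ne (by omega) (by omega) (by omega)) (hp.adj j (by omega)) (hp.adj (j + 1) hk)
    omega

/-- the large label at the end -/
theorem end_path_end (h : Hy M T) {n : ℕ} {p : ℕ → B} (hp : Chn M T n p) (hT : ∀ b ∈ T, ∃ x, x < n ∧ p x = b)
    (hi : ∀ x y, x + 1 < y → y < n → M (p x) (p y) = 2) (h4 : 4 ≤ M (p 0) (p 1))
    (h3 : ∀ x, x + 1 < n → x ≠ 0 → M (p x) (p (x + 1)) = 3) : IsCl M T ∨ IsEx M T := by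
  have hn : 3 ≤ n := by
    rw [← chn_card hp hT]
    exact h.card
  have h5 : M (p 0) (p 1) ≤ 5 := chn_le5 h hp hn (k := 0) (by omega) h4
  have hL : ∀ m, M (p 0) (p 1) = m → IsTy M T n fun x y => if x + 1 = y then (if x = 0 then m else 3) else 2 := by
    intro m hm
    refine chn_ty hp hT fun x y hxy hy => ?_
    split_ifs with h1 h2
    · subst h1 h2
      exact hm
    · subst h1
      exact h3 x hy h2
    · exact hi x y (by omega) hy
  by_cases h6 : M (p 0) (p 1) = 4
  · left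
    obtain ⟨e, he⟩ := hL 4 h6
    exact ⟨.B, n, e, hn, he⟩
  · right
    have h7 : M (p 0) (p 1) = 5 := by omega
    have h8 := hL 5 h7
    rcases Nat.lt_or_ge n 5 with h9 | h9
    · have h10 : n = 3 ∨ n = 4 := by omega
      rcases h10 with rfl | rfl
      · exact ⟨.H3, h8⟩
      · exact ⟨.H4, h8⟩
    · exfalso
      obtain ⟨v, hv, x, hx, hxl⟩ := Pool.Agent.H10.CD.mXb
      refine cmp_lt h.toHyp hv (f := p) (emb_of h (fun x hx => hp.mem x (by omega))
        (fun x y hxy hy => hp.inj x y hxy (by omega)) fun x y hxy hy => ?_) hx hxl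
      change (if x + 1 = y then (if x = 0 then 5 else 3) else 2) = 2 ∨
        (if x + 1 = y then (if x = 0 then 5 else 3) else 2) ≤ M (p x) (p y)
      split_ifs with h1 h2
      · subst h1 h2
        exact Or.inr h7.ge
      · subst h1
        exact Or.inr (hp.adj x (by omega))
      · exact Or.inl rfl

/-- the label `5` does not occur in the interior -/
theorem end_path_int5 (h : Hy M T) {n : ℕ} {p : ℕ → B} (hp : Chn M T n p) {k : ℕ} (hk1 : 1 ≤ k) (hk : k + 2 < n)
    (h5 : 5 ≤ M (p k) (p (k + 1))) : False := by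
  obtain ⟨v, hv, x, hx, hxl⟩ := Pool.Agent.H10.CD.mXa
  refine cmp_lt h.toHyp hv (f := fun x => p (k - 1 + x)) (emb_of h (fun x hx => hp.mem _ (by omega))
    (fun x y hxy hy => hp.inj _ _ (by omega) (by omega)) fun x y hxy hy => ?_) hx hxl
  change (if x + 1 = y then (if x = 1 then 5 else 3) else 2) = 2 ∨
    (if x + 1 = y then (if x = 1 then 5 else 3) else 2) ≤ M (p (k - 1 + x)) (p (k - 1 + y))
  split_ifs with h1 h2
  · subst h1 h2
    have e1 : k - 1 + 1 = k := by omega
    have e2 : k - 1 + (1 + 1) = k + 1 := by omega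
    rw [e1, e2]
    exact Or.inr h5
  · subst h1
    exact Or.inr (hp.adj (k - 1 + x) (by omega))
  · exact Or.inl rfl

/-- the label `4` in the interior of a chain with at least five vertices -/
theorem end_path_int4 (h : Hy M T) {n : ℕ} {p : ℕ → B} (hp : Chn M T n p) {k : ℕ} (hk1 : 1 ≤ k) (hk : k + 3 < n)
    (h4 : 4 ≤ M (p k) (p (k + 1))) : IsEx M T := by
  obtain ⟨v, hv⟩ := Pool.Agent.H10.CD.mF4
  suffices h0 : IsTy M T 5 Ex.tF4.lab from ⟨.tF4, h0⟩
  refine cmp (f := fun x => p (k - 1 + x)) h.toHyp hv (emb_of h (fun x hx => hp.mem _ (by omega))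
    (fun x y hxy hy => hp.inj _ _ (by omega) (by omega)) fun x y hxy hy => ?_) (by decide)
  change (if x + 1 = y then (if x = 1 then 4 else 3) else 2) = 2 ∨
    (if x + 1 = y then (if x = 1 then 4 else 3) else 2) ≤ M (p (k - 1 + x)) (p (k - 1 + y))
  split_ifs with h1 h2
  · subst h1 h2
    have e1 : k - 1 + 1 = k := by omega
    have e2 : k - 1 + (1 + 1) = k + 1 := by omega
    rw [e1, e2]
    exact Or.inr h4
  · subst h1
    exact Or.inr (hp.adj (k - 1 + x) (by omega))
  · exact Or.inl rfl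

/-- one label is larger than three -/
theorem end_path (h : Hy M T) {n : ℕ} {p : ℕ → B} (hp : Chn M T n p) (hT : ∀ b ∈ T, ∃ x, x < n ∧ p x = b)
    (hi : ∀ x y, x + 1 < y → y < n → M (p x) (p y) = 2) {k : ℕ} (hk : k + 1 < n) (h4 : 4 ≤ M (p k) (p (k + 1)))
    (h3 : ∀ x, x + 1 < n → x ≠ k → M (p x) (p (x + 1)) = 3) : IsCl M T ∨ IsEx M T := by
  have hn : 3 ≤ n := by
    rw [← chn_card hp hT]
    exact h.card
  have h5 := chn_le5 h hp hn hk h4
  have er : ∀ x, x + 1 < n → M (p (n - 1 - x)) (p (n - 1 - (x + 1))) = M (p (n - 2 - x)) (p (n - 2 - x + 1)) := by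
    intro x hx
    have e1 : n - 1 - x = n - 2 - x + 1 := by omega
    have e2 : n - 1 - (x + 1) = n - 2 - x := by omega
    rw [e1, e2, M.symmetric]
  rcases Nat.eq_zero_or_pos k with h0 | h0
  · subst h0
    exact end_path_end h hp hT hi h4 h3
  rcases Nat.eq_or_lt_of_le (show k + 2 ≤ n by omega) with h1 | h1
  · -- the last label: reverse
    refine end_path_end h hp.rev (fun b hb => ?_) (fun x y hxy hy => ?_) ?_ fun x hx hx0 => ?_
    · obtain ⟨x, hx, hxb⟩ := hT b hb
      refine ⟨n - 1 - x, by omega, ?_⟩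
      have e1 : n - 1 - (n - 1 - x) = x := by omega
      change p (n - 1 - (n - 1 - x)) = b
      rw [e1, hxb]
    · rw [M.symmetric]
      exact hi _ _ (by omega) (by omega)
    · change 4 ≤ M (p (n - 1 - 0)) (p (n - 1 - (0 + 1)))
      rw [er 0 (by omega)]
      have e1 : n - 2 - 0 = k := by omega
      rw [e1]
      exact h4
    · rw [er x hx]
      exact h3 _ (by omega) (by omega)
  right
  have h6 : M (p k) (p (k + 1)) = 4 := by
    by_contra h6
    exact end_path_int5 h hp h0 h1 (by omega)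
  rcases Nat.lt_or_ge (k + 3) n with h7 | h7
  · exact end_path_int4 h hp h0 h7 h4
  rcases Nat.lt_or_ge 1 k with h8 | h8
  · refine end_path_int4 h hp.rev (k := n - 2 - k) (by omega) (by omega) ?_
    rw [er _ (by omega)]
    have e1 : n - 2 - (n - 2 - k) = k := by omega
    rw [e1]
    exact h4
  · have e1 : k = 1 := by omega
    have e2 : n = 4 := by omega
    subst e1 e2
    refine ⟨.F4, chn_ty hp hT fun x y hxy hy => ?_⟩
    change M (p x) (p y) = if x + 1 = y then (if x = 1 then 4 else 3) else 2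
    split_ifs with h9 h10
    · subst h9 h10
      exact h6
    · subst h9
      exact h3 x hy h10
    · exact hi x y (by omega) hy

end Pool.Agent.H75.CD
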